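import Pool.Agent.H519Z.FLM.RPDefs
import Pool.Agent.H519Z.FLM.RP

open Pool.Agent.H519Z.FLM

namespace Pool.Agent.Results.MP_4e034d_co.StretchedExpLower

/-- Every triangulation of real projective `d`-space has at least `exp (c √d)` vertices. -/
theorem result :
    ∃ c : ℝ, 0 < c ∧ ∀ d : ℕ, 1 ≤ d → ∀ (n : ℕ) (K : AbstractSimplicialComplex (Fin n)),
      Nonempty (realization K ≃ₜ RP d) → Real.exp (c * Real.sqrt (d : ℝ)) ≤ (n : ℝ) :=
  ⟨1 / 323, by norm_num, fun _ hd _ _ ⟨φ⟩ => rp_main hd φ⟩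

end Pool.Agent.Results.MP_4e034d_co.StretchedExpLower
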